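import Pool.Agent.H458.AU.Def

/-! # Divergence of the sum of `1 / N(v)` over the primes of a number field

The counting argument of Erdős: if the sum converges, almost all ideals would be products of a
square and an ideal from a finite set. -/

set_option autoImplicit false

open NumberField Filter Topology IsDedekindDomain
open Pool.Agent.N352.PF (nv)

namespace Pool.Agent.H348.AU458.SUM

variable (E : Type) [Field E] [NumberField E]

/-- The nonzero ideals of norm at most `X`. -/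
def Idl (X : ℝ) : Set (Ideal (𝓞 E)) := {I | I ≠ ⊥ ∧ (Ideal.absNorm I : ℝ) ≤ X}

lemma Idl_fin (X : ℝ) : (Idl E X).Finite := by
  refine (Ideal.finite_setOfPred_absNorm_le (S := 𝓞 E) ⌊X⌋₊).subset ?_
  rintro I ⟨h1, h2⟩
  exact Nat.le_floor h2

variable {E} in
lemma norm_ge {I : Ideal (𝓞 E)} (h : I ≠ ⊥) : (1 : ℝ) ≤ (Ideal.absNorm I : ℝ) := by
  have h1 : Ideal.absNorm I ≠ 0 := by
    rw [Ne, Ideal.absNorm_eq_zero_iff]
    exact h
  exact_mod_cast Nat.one_le_iff_ne_zero.2 h1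

lemma Idl_mono {X Y : ℝ} (h : X ≤ Y) : (Idl E X).ncard ≤ (Idl E Y).ncard :=
  Set.ncard_le_ncard (fun _ hI => ⟨hI.1, hI.2.trans h⟩) (Idl_fin E Y)

lemma Idl_lt_one {X : ℝ} (h : X < 1) : Idl E X = ∅ := by
  rw [Set.eq_empty_iff_forall_notMem]
  rintro I ⟨h1, h2⟩
  have := norm_ge h1
  linarith

lemma card_le (X : ℝ) :
    Nat.card {I : Ideal (𝓞 E) // (Ideal.absNorm I : ℝ) ≤ X} ≤ (Idl E X).ncard + 1 := by
  have h1 : Nat.card {I : Ideal (𝓞 E) // (Ideal.absNorm I : ℝ) ≤ X} =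
      Set.ncard {I : Ideal (𝓞 E) | (Ideal.absNorm I : ℝ) ≤ X} := rfl
  rw [h1]
  refine (Set.ncard_le_ncard (t := insert ⊥ (Idl E X)) ?_ ((Idl_fin E X).insert _)).trans
    (Set.ncard_insert_le _ _)
  intro I hI
  by_cases h : I = ⊥
  · exact Or.inl h
  · exact Or.inr ⟨h, hI⟩

lemma le_card (X : ℝ) :
    (Idl E X).ncard ≤ Nat.card {I : Ideal (𝓞 E) // (Ideal.absNorm I : ℝ) ≤ X} := by
  have h1 : Nat.card {I : Ideal (𝓞 E) // (Ideal.absNorm I : ℝ) ≤ X} =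
      Set.ncard {I : Ideal (𝓞 E) | (Ideal.absNorm I : ℝ) ≤ X} := rfl
  rw [h1]
  refine Set.ncard_le_ncard (fun I hI => hI.2) ?_
  refine (Ideal.finite_setOfPred_absNorm_le (S := 𝓞 E) ⌊X⌋₊).subset ?_
  intro I h2
  exact Nat.le_floor h2

lemma bounds : ∃ κ : ℝ, 0 < κ ∧ ∃ X₁ : ℝ, 1 ≤ X₁ ∧ ∀ X : ℝ, X₁ ≤ X →
    κ * X ≤ ((Idl E X).ncard : ℝ) ∧ ((Idl E X).ncard : ℝ) ≤ 4 * κ * X := by
  have h1 := Ideal.tendsto_norm_le_div_atTop E
  have h2 := dedekindZeta_residue_pos E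
  rw [dedekindZeta_residue_def] at h2
  set ρ := (2 ^ InfinitePlace.nrRealPlaces E * (2 * Real.pi) ^ InfinitePlace.nrComplexPlaces E *
    Units.regulator E * classNumber E) / (Units.torsionOrder E * Real.sqrt |discr E|) with hρ
  refine ⟨ρ / 2, by positivity, ?_⟩
  have h3 := h1.eventually (lt_mem_nhds (show 3 / 4 * ρ < ρ by linarith))
  have h4 := h1.eventually (gt_mem_nhds (show ρ < 2 * ρ by linarith))
  obtain ⟨X₀, hX₀⟩ := (h3.and (h4.and (eventually_ge_atTop (4 / ρ)))).exists_forall_of_atTop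
  refine ⟨max X₀ 1, le_max_right _ _, fun X hX => ?_⟩
  have hX1 : 1 ≤ X := (le_max_right _ _).trans hX
  obtain ⟨h5, h6, h7⟩ := hX₀ X ((le_max_left _ _).trans hX)
  have hX0 : 0 < X := by linarith
  rw [lt_div_iff₀ hX0] at h5
  rw [div_lt_iff₀ hX0] at h6
  rw [div_le_iff₀ h2] at h7
  have h8 : (Nat.card {I : Ideal (𝓞 E) // (Ideal.absNorm I : ℝ) ≤ X} : ℝ) ≤
      ((Idl E X).ncard : ℝ) + 1 := by exact_mod_cast card_le E X
  have h9 : ((Idl E X).ncard : ℝ) ≤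
      (Nat.card {I : Ideal (𝓞 E) // (Ideal.absNorm I : ℝ) ≤ X} : ℝ) := by
    exact_mod_cast le_card E X
  constructor
  · nlinarith
  · nlinarith

lemma upper : ∃ C : ℝ, 0 < C ∧ ∀ X : ℝ, 0 ≤ X → ((Idl E X).ncard : ℝ) ≤ C * X := by
  obtain ⟨κ, hκ, X₁, hX₁, h⟩ := bounds E
  refine ⟨4 * κ + ((Idl E X₁).ncard : ℝ), by positivity, fun X hX => ?_⟩
  have h0 : (0 : ℝ) ≤ ((Idl E X₁).ncard : ℝ) := Nat.cast_nonneg _
  rcases lt_or_ge X 1 with h1 | h1
  · rw [Idl_lt_one E h1, Set.ncard_empty, Nat.cast_zero]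
    positivity
  rcases le_total X₁ X with h2 | h2
  · have := (h X h2).2
    nlinarith
  · have h3 : ((Idl E X).ncard : ℝ) ≤ ((Idl E X₁).ncard : ℝ) := by exact_mod_cast Idl_mono E h2
    nlinarith

variable {E}

lemma exists_dec (I : Ideal (𝓞 E)) (hI : I ≠ ⊥) :
    ∃ 𝔡 𝔢 : Ideal (𝓞 E), Squarefree 𝔡 ∧ 𝔢 ≠ ⊥ ∧ I = 𝔡 * 𝔢 ^ 2 := by
  induction I using WfDvdMonoid.induction_on_irreducible with
  | zero => exact absurd rfl hI
  | unit u hu =>
    refine ⟨1, 1, squarefree_one, by rw [Ideal.one_eq_top]; exact top_ne_bot, ?_⟩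
    rw [one_mul, one_pow, Ideal.one_eq_top]
    exact Ideal.isUnit_iff.mp hu
  | mul z p hz hp ih =>
    obtain ⟨𝔡, 𝔢, h1, h2, h3⟩ := ih hz
    have hp0 : p ≠ ⊥ := hp.ne_zero
    by_cases hd : p ∣ 𝔡
    · obtain ⟨𝔡', rfl⟩ := hd
      refine ⟨𝔡', p * 𝔢, h1.squarefree_of_dvd (dvd_mul_left _ _), mul_ne_zero hp0 h2, ?_⟩
      rw [h3]; ring
    · refine ⟨p * 𝔡, 𝔢, ?_, h2, ?_⟩
      · exact squarefree_mul_iff.mpr ⟨hp.isRelPrime_iff_not_dvd.mpr hd, hp.squarefree, h1⟩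
      · rw [h3]; ring

/-- The squarefree ideals supported on `T` -/
def Sq (T : Finset (HeightOneSpectrum (𝓞 E))) : Set (Ideal (𝓞 E)) :=
  {A | Squarefree A ∧ ∀ v : HeightOneSpectrum (𝓞 E), v.asIdeal ∣ A → v ∈ T}

lemma dvd_of_sqf (A P : Ideal (𝓞 E)) (h1 : Squarefree A) (hP0 : P ≠ ⊥)
    (h : ∀ p : Ideal (𝓞 E), Prime p → p ∣ A → p ∣ P) : A ∣ P := by
  have hA0 : A ≠ 0 := h1.ne_zero
  rw [UniqueFactorizationMonoid.dvd_iff_normalizedFactors_le_normalizedFactors hA0 hP0]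
  have h3 := (UniqueFactorizationMonoid.squarefree_iff_nodup_normalizedFactors hA0).1 h1
  rw [Multiset.le_iff_subset h3]
  intro p hp
  have hpp : Prime p := UniqueFactorizationMonoid.prime_of_normalized_factor p hp
  have hpd : p ∣ A := UniqueFactorizationMonoid.dvd_of_mem_normalizedFactors hp
  exact (Ideal.mem_normalizedFactors_iff hP0).2
    ⟨Ideal.isPrime_of_prime hpp, Ideal.le_of_dvd (h p hpp hpd)⟩

omit [NumberField E] in
lemma dvd_prod (T : Finset (HeightOneSpectrum (𝓞 E))) (v : HeightOneSpectrum (𝓞 E)) (hv : v ∈ T) :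
    v.asIdeal ∣ ∏ v ∈ T, v.asIdeal :=
  Finset.dvd_prod_of_mem (fun v : HeightOneSpectrum (𝓞 E) => v.asIdeal) hv

omit [NumberField E] in
lemma prod_ne (T : Finset (HeightOneSpectrum (𝓞 E))) : ∏ v ∈ T, v.asIdeal ≠ ⊥ := by
  have hP0 : ∏ v ∈ T, v.asIdeal ≠ 0 := Finset.prod_ne_zero_iff.2 fun v _ => v.ne_bot
  exact hP0

lemma Sq_dvd (T : Finset (HeightOneSpectrum (𝓞 E))) (A : Ideal (𝓞 E)) (hA : A ∈ Sq T) :
    A ∣ ∏ v ∈ T, v.asIdeal := by
  have h1 := dvd_of_sqf A (∏ v ∈ T, v.asIdeal) hA.1 (prod_ne T)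
  apply h1
  intro p hp hpA
  let v : HeightOneSpectrum (𝓞 E) := ⟨p, Ideal.isPrime_of_prime hp, hp.ne_zero⟩
  have hv : v ∈ T := hA.2 v hpA
  exact dvd_prod T v hv

lemma Sq_fin (T : Finset (HeightOneSpectrum (𝓞 E))) : (Sq T).Finite := by
  refine (Ideal.finite_setOfPred_absNorm_le (S := 𝓞 E)
    (Ideal.absNorm (∏ v ∈ T, v.asIdeal))).subset ?_
  intro A hA
  have h1 := map_dvd (Ideal.absNorm (S := 𝓞 E)) (Sq_dvd T A hA)
  refine Nat.le_of_dvd (Nat.pos_of_ne_zero ?_) h1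
  rw [Ne, Ideal.absNorm_eq_zero_iff]
  exact prod_ne T

/-- The primes of norm at most `X` -/
def Pr (X : ℝ) : Set (HeightOneSpectrum (𝓞 E)) := {v | (nv v : ℝ) ≤ X}

lemma Pr_fin (X : ℝ) : (Pr (E := E) X).Finite := by
  have h1 : Set.InjOn (fun v : HeightOneSpectrum (𝓞 E) => v.asIdeal) (Pr X) := by
    intro v _ w _ h
    exact HeightOneSpectrum.ext h
  refine Set.Finite.of_finite_image ((Idl_fin E X).subset ?_) h1
  rintro _ ⟨v, hv, rfl⟩
  exact ⟨v.ne_bot, hv⟩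

open scoped Classical in
lemma cover (T : Finset (HeightOneSpectrum (𝓞 E))) (X : ℝ) :
    Idl E X ⊆ (⋃ v ∈ ((Pr_fin (E := E) X).toFinset.filter fun v => v ∉ T),
      (fun J => v.asIdeal * J) '' Idl E (X / (nv v : ℝ))) ∪
      (fun p : Ideal (𝓞 E) × Ideal (𝓞 E) => p.1 * p.2 ^ 2) '' (Sq T ×ˢ Idl E (Real.sqrt X)) := by
  rintro I ⟨h1, h2⟩
  by_cases h : ∃ v : HeightOneSpectrum (𝓞 E), v.asIdeal ∣ I ∧ v ∉ T
  · left
    obtain ⟨v, ⟨J, rfl⟩, hvT⟩ := h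
    have hJ : J ≠ ⊥ := by
      rintro rfl
      apply h1
      exact mul_zero _
    have hv1 : (1 : ℝ) ≤ (nv v : ℝ) := norm_ge v.ne_bot
    have hJ1 := norm_ge hJ
    have hN : (Ideal.absNorm (v.asIdeal * J) : ℝ) = (nv v : ℝ) * (Ideal.absNorm J : ℝ) := by
      rw [map_mul]
      push_cast
      rfl
    rw [hN] at h2
    rw [Set.mem_iUnion₂]
    refine ⟨v, ?_, J, ⟨hJ, ?_⟩, rfl⟩
    · rw [Finset.mem_filter, Set.Finite.mem_toFinset]
      refine ⟨?_, hvT⟩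
      show (nv v : ℝ) ≤ X
      nlinarith
    · rw [le_div_iff₀ (by linarith)]
      linarith
  · right
    push Not at h
    obtain ⟨A, B, hA, hB, rfl⟩ := exists_dec I h1
    have hA1 := norm_ge hA.ne_zero
    have hB1 := norm_ge hB
    refine ⟨(A, B), ⟨⟨hA, fun v hv => h v (hv.mul_right _)⟩, hB, ?_⟩, rfl⟩
    refine Real.le_sqrt_of_sq_le ?_
    have hN : (Ideal.absNorm (A * B ^ 2) : ℝ) =
        (Ideal.absNorm A : ℝ) * (Ideal.absNorm B : ℝ) ^ 2 := by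
      rw [map_mul, map_pow]
      push_cast
      rfl
    rw [hN] at h2
    nlinarith [sq_nonneg (Ideal.absNorm B : ℝ)]

open scoped Classical in
lemma count (T : Finset (HeightOneSpectrum (𝓞 E))) (C δ X : ℝ) (hX : 0 ≤ X)
    (hC : ∀ Y : ℝ, 0 ≤ Y → ((Idl E Y).ncard : ℝ) ≤ C * Y) (hC0 : 0 < C)
    (hδ : ∀ S : Finset (HeightOneSpectrum (𝓞 E)), (∀ v ∈ S, v ∉ T) →
      ∑ v ∈ S, 1 / (nv v : ℝ) ≤ δ) :
    ((Idl E X).ncard : ℝ) ≤ C * δ * X + (Sq T).ncard * (C * Real.sqrt X) := by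
  classical
  set P := (Pr_fin (E := E) X).toFinset.filter fun v => v ∉ T with hP
  have hf1 : (⋃ v ∈ P, (fun J => v.asIdeal * J) '' Idl E (X / (nv v : ℝ))).Finite :=
    Set.Finite.biUnion (Finset.finite_toSet _) fun v _ => (Idl_fin E _).image _
  have hf2 : ((fun p : Ideal (𝓞 E) × Ideal (𝓞 E) => p.1 * p.2 ^ 2) ''
      (Sq T ×ˢ Idl E (Real.sqrt X))).Finite := ((Sq_fin T).prod (Idl_fin E _)).image _
  have h1 := Set.ncard_le_ncard (cover T X) (hf1.union hf2)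
  have h2 := h1.trans (Set.ncard_union_le _ _)
  have h3 : (⋃ v ∈ P, (fun J => v.asIdeal * J) '' Idl E (X / (nv v : ℝ))).ncard ≤
      ∑ v ∈ P, (Idl E (X / (nv v : ℝ))).ncard :=
    (Finset.set_ncard_biUnion_le _ _).trans
      (Finset.sum_le_sum fun v _ => Set.ncard_image_le (Idl_fin E _))
  have h4 : ((fun p : Ideal (𝓞 E) × Ideal (𝓞 E) => p.1 * p.2 ^ 2) ''
      (Sq T ×ˢ Idl E (Real.sqrt X))).ncard ≤ (Sq T).ncard * (Idl E (Real.sqrt X)).ncard := by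
    refine (Set.ncard_image_le ((Sq_fin T).prod (Idl_fin E _))).trans ?_
    rw [Set.ncard_prod]
  have h5 : ((Idl E X).ncard : ℝ) ≤ ∑ v ∈ P, ((Idl E (X / (nv v : ℝ))).ncard : ℝ) +
      (Sq T).ncard * ((Idl E (Real.sqrt X)).ncard : ℝ) := by
    exact_mod_cast h2.trans (Nat.add_le_add h3 h4)
  have h6 : ∑ v ∈ P, ((Idl E (X / (nv v : ℝ))).ncard : ℝ) ≤ C * δ * X := by
    calc ∑ v ∈ P, ((Idl E (X / (nv v : ℝ))).ncard : ℝ) ≤ ∑ v ∈ P, (C * X) * (1 / (nv v : ℝ)) := by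
          refine Finset.sum_le_sum fun v _ => ?_
          have h7 := hC (X / (nv v : ℝ)) (by positivity)
          refine h7.trans (le_of_eq ?_)
          ring
      _ = (C * X) * ∑ v ∈ P, 1 / (nv v : ℝ) := (Finset.mul_sum _ _ _).symm
      _ ≤ (C * X) * δ := mul_le_mul_of_nonneg_left
          (hδ P fun v hv => (Finset.mem_filter.1 hv).2) (by positivity)
      _ = C * δ * X := by ring
  have h7 : ((Sq T).ncard : ℝ) * ((Idl E (Real.sqrt X)).ncard : ℝ) ≤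
      (Sq T).ncard * (C * Real.sqrt X) :=
    mul_le_mul_of_nonneg_left (hC _ (Real.sqrt_nonneg X)) (Nat.cast_nonneg _)
  linarith

theorem sum : Pool.Agent.H458.AU.S_SUM := by
  classical
  intro E _ _ X₀ M
  by_contra hcon
  push Not at hcon
  -- the sum over the primes of norm larger than `X₀` converges
  let V := {v : HeightOneSpectrum (𝓞 E) // X₀ < nv v}
  have hsum : Summable fun v : V => 1 / (nv v.1 : ℝ) := by
    refine summable_of_sum_le (c := M) (fun v => by positivity) fun u => ?_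
    have h1 := hcon (u.map (Function.Embedding.subtype _)) (fun v hv => by
      obtain ⟨w, -, rfl⟩ := Finset.mem_map.1 hv
      exact w.2)
    rw [Finset.sum_map] at h1
    exact h1.le
  obtain ⟨κ, hκ, X₁, hX₁, hlow⟩ := bounds E
  obtain ⟨C, hC0, hC⟩ := upper E
  set δ : ℝ := κ / (4 * C) with hδ
  have hδ0 : 0 < δ := by positivity
  obtain ⟨s, hs⟩ := summable_iff_vanishing_norm.1 hsum δ hδ0
  let T : Finset (HeightOneSpectrum (𝓞 E)) :=
    s.map (Function.Embedding.subtype _) ∪ (Pr_fin (E := E) (X₀ : ℝ)).toFinset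
  have htail : ∀ S : Finset (HeightOneSpectrum (𝓞 E)), (∀ v ∈ S, v ∉ T) →
      ∑ v ∈ S, 1 / (nv v : ℝ) ≤ δ := by
    intro S hS
    have hS1 : ∀ v ∈ S, X₀ < nv v := by
      intro v hv
      by_contra hle
      apply hS v hv
      rw [Finset.mem_union]
      right
      rw [Set.Finite.mem_toFinset]
      show (nv v : ℝ) ≤ X₀
      exact_mod_cast not_lt.1 hle
    have h1 : ∑ v ∈ S, 1 / (nv v : ℝ) = ∑ v ∈ S.subtype (fun v => X₀ < nv v), 1 / (nv v.1 : ℝ) := by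
      rw [Finset.sum_subtype_of_mem (fun v => 1 / (nv v : ℝ)) hS1]
    rw [h1]
    have h2 := hs (S.subtype (fun v => X₀ < nv v)) (by
      rw [Finset.disjoint_left]
      intro v hv hvs
      rw [Finset.mem_subtype] at hv
      apply hS v.1 hv
      rw [Finset.mem_union]
      left
      exact Finset.mem_map.2 ⟨v, hvs, rfl⟩)
    exact (le_abs_self _).trans h2.le
  -- contradiction for large `X`
  set q : ℝ := ((Sq T).ncard : ℝ) with hq
  have hq0 : 0 ≤ q := Nat.cast_nonneg _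
  set X : ℝ := max X₁ ((2 * q * C / κ + 1) ^ 2) with hX
  have hX1 : X₁ ≤ X := le_max_left _ _
  have hX2 : (2 * q * C / κ + 1) ^ 2 ≤ X := le_max_right _ _
  have hX0 : 0 < X := by linarith
  have h1 := (hlow X hX1).1
  have h2 := count T C δ X hX0.le hC hC0 htail
  have h3 : C * δ = κ / 4 := by
    rw [hδ]
    field_simp
  rw [h3] at h2
  have h4 : Real.sqrt X * Real.sqrt X = X := Real.mul_self_sqrt hX0.le
  have h5 : 2 * q * C / κ + 1 ≤ Real.sqrt X := Real.le_sqrt_of_sq_le hX2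
  have h6 : 2 * q * C + κ ≤ κ * Real.sqrt X := by
    have h7 := mul_le_mul_of_nonneg_left h5 hκ.le
    have h8 : κ * (2 * q * C / κ + 1) = 2 * q * C + κ := by
      field_simp
    linarith
  have h7 : 0 < Real.sqrt X := Real.sqrt_pos.2 hX0
  have h8 : (2 * q * C + κ) * Real.sqrt X ≤ κ * X := by
    calc (2 * q * C + κ) * Real.sqrt X ≤ (κ * Real.sqrt X) * Real.sqrt X :=
          mul_le_mul_of_nonneg_right h6 h7.le
      _ = κ * X := by rw [mul_assoc, h4]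
  have h9 : κ * X ≤ κ / 4 * X + q * (C * Real.sqrt X) := h1.trans h2
  nlinarith [mul_pos hκ h7, mul_pos hκ hX0]

end Pool.Agent.H348.AU458.SUM
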